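import Pool.Agent.R786.BP.Defs

namespace Pool.Agent.R786.BP

open Function

variable {C H : Type}

theorem chainUp {E : C → C → Prop} (hE : Ext E) (U : Finset C) :
    ∃ w : ℕ → C, (∀ i j, i < j → E (w i) (w j)) ∧ ∀ i, ∀ u ∈ U, E u (w i) := by
  classical
  choose nxt hnxt using fun U => (hE U).2
  let S : ℕ → Finset C := fun n => Nat.rec U (fun _ s => insert (nxt s) s) n
  have hS : ∀ n, S (n + 1) = insert (nxt (S n)) (S n) := fun n => rfl
  have hmono : ∀ i j, i ≤ j → S i ⊆ S j := by
    intro i j hij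
    induction j, hij using Nat.le_induction with
    | base => exact fun _ h => h
    | succ j _ ih => exact fun x hx => by rw [hS]; exact Finset.mem_insert_of_mem (ih hx)
  refine ⟨fun n => nxt (S n), ?_, ?_⟩
  · intro i j hij
    apply hnxt
    apply hmono (i + 1) j hij
    rw [hS]
    exact Finset.mem_insert_self _ _
  · intro i u hu
    exact hnxt _ _ (hmono 0 i (Nat.zero_le _) hu)

theorem ext_flip {E : C → C → Prop} (hE : Ext E) : Ext (fun a b => E b a) := fun U =>
  ⟨(hE U).2, (hE U).1⟩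

theorem chainDown {E : C → C → Prop} (hE : Ext E) (U : Finset C) :
    ∃ w : ℕ → C, (∀ i j, i < j → E (w j) (w i)) ∧ ∀ i, ∀ u ∈ U, E (w i) u :=
  chainUp (ext_flip hE) U

/-- a colouring of an `Ext` digraph by finitely many colours: two equally coloured adjacent
vertices below a finite set -/
theorem monoDown {E : C → C → Prop} (hE : Ext E) (U : Finset C) {T : Type} [Finite T] (χ : C → T) :
    ∃ a a', E a a' ∧ χ a = χ a' ∧ (∀ u ∈ U, E a u) ∧ ∀ u ∈ U, E a' u := by
  obtain ⟨w, hw, hU⟩ := chainDown hE U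
  obtain ⟨i, j, hij, h⟩ := Finite.exists_ne_map_eq_of_infinite (fun n : ℕ => χ (w n))
  rcases lt_or_gt_of_ne hij with hlt | hlt
  · exact ⟨w j, w i, hw _ _ hlt, h.symm, hU j, hU i⟩
  · exact ⟨w i, w j, hw _ _ hlt, h, hU i, hU j⟩

theorem monoUp {E : C → C → Prop} (hE : Ext E) (U : Finset C) {T : Type} [Finite T] (χ : C → T) :
    ∃ b b', E b b' ∧ χ b = χ b' ∧ (∀ u ∈ U, E u b) ∧ ∀ u ∈ U, E u b' := by
  obtain ⟨a, a', h1, h2, h3, h4⟩ := monoDown (ext_flip hE) U χ
  exact ⟨a', a, h1, h2.symm, h4, h3⟩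

/-- a core with a loop has only one vertex -/
theorem subsingleton_of_loop {F : H → H → Prop} (hc : IsCore F) {l : H} (hl : F l l) (a b : H) :
    a = b := hc (fun _ => l) (fun _ _ _ => hl) rfl

theorem fold_point {F : H → H → Prop} (hc : IsCore F) (h p : H) (h1 : ∀ x, F x h → F x p)
    (h2 : ∀ y, F h y → F p y) : p = h := by
  classical
  by_contra hne
  by_cases hl : F h h
  · exact hne (subsingleton_of_loop hc hl p h)
  have hinj : Injective (fun x => if x = h then p else x) := by
    apply hc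
    intro x y hxy
    by_cases hx : x = h
    · by_cases hy : y = h
      · rw [hx, hy] at hxy
        exact absurd hxy hl
      · simp only [hx, hy, if_true, if_false]
        rw [hx] at hxy
        exact h2 y hxy
    · by_cases hy : y = h
      · simp only [hx, hy, if_true, if_false]
        rw [hy] at hxy
        exact h1 x hxy
      · simp only [hx, hy, if_false]
        exact hxy
  have : (if h = h then p else h) = (if p = h then p else p) := by simp
  have h3 := hinj this
  exact hne h3.symm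

/-- the inverse of an endomorphism of a finite core is a homomorphism -/
theorem exists_inv [Finite H] {F : H → H → Prop} (hc : IsCore F) {τ : H → H} (hτ : IsHom F F τ) :
    ∃ τ' : H → H, IsHom F F τ' ∧ (∀ x, τ' (τ x) = x) ∧ ∀ x, τ (τ' x) = x := by
  let e : Equiv.Perm H := Equiv.ofBijective τ ((Finite.injective_iff_bijective).1 (hc τ hτ))
  have he : ∀ x, e x = τ x := fun x => rfl
  have hpow : ∀ k : ℕ, IsHom F F (⇑(e ^ k)) := by
    intro k
    induction k with
    | zero => intro x y h; simpa using h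
    | succ k ih =>
      intro x y h
      rw [pow_succ']
      simp only [Equiv.Perm.mul_apply, he]
      exact hτ _ _ (ih _ _ h)
  have hpos : 0 < orderOf e := orderOf_pos e
  have hinv : e⁻¹ = e ^ (orderOf e - 1) := by
    rw [eq_comm, eq_inv_iff_mul_eq_one, ← pow_succ, Nat.sub_add_cancel hpos, pow_orderOf_eq_one]
  refine ⟨⇑(e⁻¹), hinv ▸ hpow _, fun x => ?_, fun x => ?_⟩
  · rw [← he]; exact e.symm_apply_apply x
  · rw [← he]; exact e.apply_symm_apply x

/-- two endomorphisms of a finite core one of which is below the other are equal -/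
theorem eq_of_below [Finite H] {F : H → H → Prop} (hc : IsCore F) {τ τ' : H → H}
    (h1 : IsHom F F τ) (h2 : IsHom F F τ') (h3 : ∀ x y, F x y → F (τ x) (τ' y)) : τ' = τ := by
  obtain ⟨i, hi, hi1, hi2⟩ := exists_inv hc h1
  set ρ : H → H := fun x => i (τ' x) with hρ
  have hρh : IsHom F F ρ := fun x y h => hi _ _ (h2 _ _ h)
  have a1 : ∀ x y, F x y → F x (ρ y) := by
    intro x y h
    have := hi _ _ (h3 _ _ h)
    rwa [hi1] at this
  -- iterate
  have ainf : ∀ (k : ℕ) x y, F x y → F x (ρ^[k] y) := by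
    intro k
    induction k with
    | zero => intro x y h; exact h
    | succ k ih =>
      intro x y h
      rw [Function.iterate_succ_apply']
      exact a1 _ _ (ih _ _ h)
  obtain ⟨ρ', hρ', hr1, hr2⟩ := exists_inv hc hρh
  let e : Equiv.Perm H := ⟨ρ, ρ', hr1, hr2⟩
  have hper : ∃ n, 0 < n ∧ ∀ y, ρ^[n] y = y := by
    refine ⟨orderOf e, orderOf_pos e, fun y => ?_⟩
    have h4 : (⇑(e ^ orderOf e)) y = y := by rw [pow_orderOf_eq_one]; rfl
    rw [← Equiv.Perm.iterate_eq_pow] at h4
    exact h4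
  obtain ⟨n, hn, hper⟩ := hper
  have a2 : ∀ x y, F x (ρ y) → F x y := by
    intro x y h
    have h5 := ainf (n - 1) x (ρ y) h
    rw [← Function.iterate_succ_apply, Nat.succ_eq_add_one, Nat.sub_add_cancel hn, hper] at h5
    exact h5
  have hid : ∀ h, ρ h = h := by
    intro h
    apply fold_point hc
    · intro x hx; exact a1 _ _ hx
    · intro y hy; exact a2 _ _ (hρh _ _ hy)
  funext x
  have := hid x
  rw [hρ] at this
  have h6 : τ (i (τ' x)) = τ x := by rw [show i (τ' x) = x from this]
  rwa [hi2] at h6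

theorem sandwich [Finite H] {F : H → H → Prop} (hc : IsCore F) {τ τ' σ : H → H}
    (h1 : IsHom F F τ) (h2 : IsHom F F τ') (h3 : ∀ x y, F x y → F (τ x) (τ' y))
    (h4 : ∀ x y, F x y → F (τ x) (σ y)) (h5 : ∀ x y, F x y → F (σ x) (τ' y)) : σ = τ := by
  have heq := eq_of_below hc h1 h2 h3
  subst heq
  obtain ⟨i, hi, hi1, hi2⟩ := exists_inv hc h1
  funext h
  have : i (σ h) = h := by
    apply fold_point hc
    · intro x hx
      have := hi _ _ (h4 _ _ hx)
      rwa [hi1] at this
    · intro y hy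
      have := hi _ _ (h5 _ _ hy)
      rwa [hi1] at this
  rw [← hi2 (σ h), this]

/-- The colour part of an endomorphism of a product. -/
theorem color [Finite H] {E : C → C → Prop} {F : H → H → Prop} (hE : Ext E) (hc : IsCore F)
    {α : C × H → C × H} (hα : IsHom (prodE E F) (prodE E F) α) :
    ∃ σ : H → H, IsHom F F σ ∧ ∀ p, (α p).2 = σ p.2 := by
  classical
  set col : C → H → H := fun q h => (α (q, h)).2 with hcol
  have step : ∀ q q', E q q' → ∀ x y, F x y → F (col q x) (col q' y) := by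
    intro q q' hq x y h
    exact (hα (q, x) (q', y) ⟨hq, h⟩).2
  -- every `col q` is an endomorphism
  have key : ∀ q, IsHom F F (col q) := by
    intro q
    obtain ⟨a, a', haa, hχ, haq, -⟩ := monoDown hE {q} col
    obtain ⟨b, b', hbb, hχ', hab, -⟩ := monoUp hE {q, a} col
    have h1 : IsHom F F (col a) := fun x y h => by
      have := step _ _ haa x y h
      rwa [← hχ] at this
    have h2 : IsHom F F (col b) := fun x y h => by
      have := step _ _ hbb x y h
      rwa [← hχ'] at this
    have h3 := step a b (hab a (by simp))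
    have h4 := step a q (haq q (by simp))
    have h5 := step q b (hab q (by simp))
    have := sandwich hc h1 h2 h3 h4 h5
    rw [this]
    exact h1
  obtain ⟨c0, -⟩ := (hE ∅).1
  refine ⟨col c0, key c0, ?_⟩
  rintro ⟨q, h⟩
  show col q h = col c0 h
  obtain ⟨e, he⟩ := (hE {q, c0}).2
  have e1 := eq_of_below hc (key q) (key e) (step q e (he q (by simp)))
  have e2 := eq_of_below hc (key c0) (key e) (step c0 e (he c0 (by simp)))
  rw [← e1, ← e2]

/-- pseudo-Siggers descends to the finite factor -/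
theorem pseudoSiggers_down [Finite H] {E : C → C → Prop} {F : H → H → Prop} (hE : Ext E)
    (hc : IsCore F) (h : PseudoSiggers (prodE E F)) : PseudoSiggers F := by
  obtain ⟨s, α, β, hs, hα, hβ, hid⟩ := h
  obtain ⟨σ, hσ, hσ'⟩ := color hE hc hα
  obtain ⟨ρ, hρ, hρ'⟩ := color hE hc hβ
  let Fc : C → (Fin 6 → H) → H := fun c x => (s (fun i => (c, x i))).2
  obtain ⟨a, a', haa, hχ, -⟩ := monoDown hE ∅ Fc
  refine ⟨Fc a, σ, ρ, ?_, hσ, hρ, ?_⟩
  · intro x y hxy
    have := (hs (fun i => (a, x i)) (fun i => (a', y i)) (fun i => ⟨haa, hxy i⟩)).2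
    have h2 : Fc a y = Fc a' y := by rw [hχ]
    rw [h2]
    exact this
  · intro x y z
    have e := congrArg Prod.snd (hid (a, x) (a, y) (a, z))
    rw [hσ', hρ'] at e
    have e1 : (fun i => (a, (![x, y, z, x, y, z] : Fin 6 → H) i)) =
        ![(a, x), (a, y), (a, z), (a, x), (a, y), (a, z)] := by
      funext i; fin_cases i <;> rfl
    have e2 : (fun i => (a, (![y, z, x, z, x, y] : Fin 6 → H) i)) =
        ![(a, y), (a, z), (a, x), (a, z), (a, x), (a, y)] := by
      funext i; fin_cases i <;> rfl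
    show σ (s _).2 = ρ (s _).2
    rw [e1, e2]
    exact e

theorem pseudoSiggers_up {E : C → C → Prop} {F : H → H → Prop} (h1 : PseudoSiggers E)
    (h2 : PseudoSiggers F) : PseudoSiggers (prodE E F) := by
  obtain ⟨s, α, β, hs, hα, hβ, hid⟩ := h1
  obtain ⟨s', α', β', hs', hα', hβ', hid'⟩ := h2
  refine ⟨fun x => (s fun i => (x i).1, s' fun i => (x i).2), fun p => (α p.1, α' p.2),
    fun p => (β p.1, β' p.2), ?_, ?_, ?_, ?_⟩
  · intro x y h; exact ⟨hs _ _ fun i => (h i).1, hs' _ _ fun i => (h i).2⟩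
  · intro x y h; exact ⟨hα _ _ h.1, hα' _ _ h.2⟩
  · intro x y h; exact ⟨hβ _ _ h.1, hβ' _ _ h.2⟩
  · intro x y z
    have e1 : ∀ {A : Type} (f : C × H → A), (fun i => f ((![x, y, z, x, y, z] : Fin 6 → C × H) i)) =
        ![f x, f y, f z, f x, f y, f z] := by
      intro A f; funext i; fin_cases i <;> rfl
    have e2 : ∀ {A : Type} (f : C × H → A), (fun i => f ((![y, z, x, z, x, y] : Fin 6 → C × H) i)) =
        ![f y, f z, f x, f z, f x, f y] := by
      intro A f; funext i; fin_cases i <;> rfl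
    simp only [e1 Prod.fst, e1 Prod.snd, e2 Prod.fst, e2 Prod.snd, hid, hid']

/-- minor conditions descend to the finite factor -/
theorem minor_down [Finite H] {E : C → C → Prop} {F : H → H → Prop} (hE : Ext E)
    {κ : Type} [Finite κ] {ar : κ → Type} [∀ k, Finite (ar k)]
    (f : ∀ k, (ar k → C × H) → C × H) (hf : ∀ k, IsPol (prodE E F) (f k)) :
    ∃ g : ∀ k, (ar k → H) → H, (∀ k, IsPol F (g k)) ∧
      ∀ (V : Type) (k l : κ) (π : ar k → V) (ρ : ar l → V),
        (∀ x : V → C × H, f k (x ∘ π) = f l (x ∘ ρ)) → ∀ x : V → H, g k (x ∘ π) = g l (x ∘ ρ) := by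
  let Fc : C → ∀ k, (ar k → H) → H := fun c k x => (f k (fun i => (c, x i))).2
  obtain ⟨a, a', haa, hχ, -⟩ := monoDown hE ∅ Fc
  refine ⟨Fc a, ?_, ?_⟩
  · intro k x y hxy
    have := (hf k (fun i => (a, x i)) (fun i => (a', y i)) (fun i => ⟨haa, hxy i⟩)).2
    have h2 : Fc a k y = Fc a' k y := by rw [hχ]
    rw [h2]
    exact this
  · intro V k l π ρ h x
    exact congrArg Prod.snd (h (fun v => (a, x v)))

end Pool.Agent.R786.BP
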