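import Mathlib

/-!
# Products of digraphs, polymorphisms and primitive positive constructions

Definitions.  A digraph is a type together with a binary relation.
-/

namespace Pool.Agent.R786.BP

/-- `f` is a homomorphism from the digraph `E` to the digraph `F`. -/
def IsHom {A B : Type} (E : A → A → Prop) (F : B → B → Prop) (f : A → B) : Prop :=
  ∀ x y, E x y → F (f x) (f y)

/-- The categorical product of two digraphs. -/
def prodE {C H : Type} (E : C → C → Prop) (F : H → H → Prop) : C × H → C × H → Prop :=
  fun p q => E p.1 q.1 ∧ F p.2 q.2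

/-- `f`, an operation whose arguments are indexed by `ι`, is a polymorphism of `E`. -/
def IsPol {A ι : Type} (E : A → A → Prop) (f : (ι → A) → A) : Prop :=
  ∀ x y : ι → A, (∀ i, E (x i) (y i)) → E (f x) (f y)

/-- Every finite set of vertices has a common in-neighbour and a common out-neighbour. -/
def Ext {C : Type} (E : C → C → Prop) : Prop :=
  ∀ U : Finset C, (∃ d, ∀ u ∈ U, E d u) ∧ ∃ e, ∀ u ∈ U, E u e

/-- Every endomorphism is injective (for a finite digraph: it is a core). -/
def IsCore {H : Type} (F : H → H → Prop) : Prop :=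
  ∀ f : H → H, IsHom F F f → Function.Injective f

/-- Every vertex has an in-neighbour and an out-neighbour. -/
def Smooth {H : Type} (F : H → H → Prop) : Prop :=
  ∀ h, (∃ a, F a h) ∧ ∃ b, F h b

/-- Every polymorphism of finite arity depends on one argument only. -/
def EssUnary {H : Type} (F : H → H → Prop) : Prop :=
  ∀ (ι : Type) [Finite ι] (f : (ι → H) → H), IsPol F f → ∃ (i : ι) (σ : H → H), ∀ x, f x = σ (x i)

/-- The pseudo-Siggers identity holds in the polymorphisms of `E`. -/
def PseudoSiggers {A : Type} (E : A → A → Prop) : Prop :=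
  ∃ (s : (Fin 6 → A) → A) (α β : A → A), IsPol E s ∧ IsHom E E α ∧ IsHom E E β ∧
    ∀ x y z, α (s ![x, y, z, x, y, z]) = β (s ![y, z, x, z, x, y])

/-- Relations that are primitive positive definable in the digraph `E`: closed under finite
conjunctions and under existential quantification of finitely many variables. -/
inductive PP {A : Type} (E : A → A → Prop) : (ι : Type) → ((ι → A) → Prop) → Prop
  | edge {ι : Type} (i j : ι) : PP E ι (fun x => E (x i) (x j))
  | eq {ι : Type} (i j : ι) : PP E ι (fun x => x i = x j)
  | conj {ι : Type} (κ : Type) (hκ : Finite κ) (R : κ → (ι → A) → Prop)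
      (h : ∀ k, PP E ι (R k)) : PP E ι (fun x => ∀ k, R k x)
  | ex {ι : Type} (κ : Type) (hκ : Finite κ) (R : (ι ⊕ κ → A) → Prop)
      (h : PP E (ι ⊕ κ) R) : PP E ι (fun x => ∃ y : κ → A, R (Sum.elim x y))

/-- The digraph `E` pp-constructs the digraph `F`: `F` is homomorphically equivalent to a digraph
whose vertices are the tuples of vertices of `E` indexed by a nonempty finite set and whose edge
relation is primitive positive definable in `E`. -/
def PPConstructs {A B : Type} (E : A → A → Prop) (F : B → B → Prop) : Prop :=
  ∃ (ι : Type), Finite ι ∧ Nonempty ι ∧ ∃ R : (ι ⊕ ι → A) → Prop, PP E (ι ⊕ ι) R ∧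
    (∃ g : (ι → A) → B, ∀ u v, R (Sum.elim u v) → F (g u) (g v)) ∧
    ∃ g : B → (ι → A), ∀ a b, F a b → R (Sum.elim (g a) (g b))

end Pool.Agent.R786.BP
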