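import Pool.Agent.R786.BP.Core

namespace Pool.Agent.R786.BP

open Function

variable {C H A : Type}

theorem PP.congr {E : A → A → Prop} {ι : Type} {R S : (ι → A) → Prop} (hR : PP E ι R)
    (h : ∀ x, R x ↔ S x) : PP E ι S := by
  have : R = S := funext fun x => propext (h x)
  exact this ▸ hR

theorem PP.and {E : A → A → Prop} {ι : Type} {R S : (ι → A) → Prop} (hR : PP E ι R)
    (hS : PP E ι S) : PP E ι (fun x => R x ∧ S x) := by
  refine (PP.conj (E := E) (ι := ι) Bool inferInstance (fun b => cond b R S) ?_).congr ?_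
  · intro b; cases b
    · exact hS
    · exact hR
  · intro x
    constructor
    · intro h; exact ⟨h true, h false⟩
    · rintro ⟨h1, h2⟩ b
      cases b
      · exact h2
      · exact h1

theorem PP.sub {E : A → A → Prop} {ι : Type} {R : (ι → A) → Prop} (hR : PP E ι R) :
    ∀ {ι' : Type} (π : ι → ι'), PP E ι' (fun x => R (x ∘ π)) := by
  induction hR with
  | edge i j => intro ι' π; exact PP.edge (π i) (π j)
  | eq i j => intro ι' π; exact PP.eq (π i) (π j)
  | conj κ hκ R h ih =>
    intro ι' π
    exact PP.conj κ hκ (fun k x => R k (x ∘ π)) (fun k => ih k π)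
  | ex κ hκ R h ih =>
    intro ι' π
    refine (PP.ex κ hκ (fun z => R (z ∘ Sum.map π id)) (ih (Sum.map π id))).congr ?_
    intro x
    refine exists_congr fun y => ?_
    have : Sum.elim x y ∘ Sum.map π id = Sum.elim (x ∘ π) y := by
      funext z; cases z <;> rfl
    rw [this]

theorem pig {T : Type} [Finite T] {M : ℕ} (hM : Nat.card T < M) (g : ℕ → T) (n0 : ℕ) :
    ∃ i j, n0 ≤ i ∧ i < j ∧ j < n0 + M ∧ g i = g j := by
  classical
  have := Fintype.ofFinite T
  obtain ⟨a, b, hab, h⟩ := Fintype.exists_ne_map_eq_of_card_lt (fun k : Fin M => g (n0 + k))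
    (by simpa [Nat.card_eq_fintype_card] using hM)
  have ha := a.2
  have hb := b.2
  rcases lt_or_gt_of_ne hab with hlt | hlt
  · have : a.val < b.val := hlt
    exact ⟨n0 + a, n0 + b, by omega, by omega, by omega, h⟩
  · have : b.val < a.val := hlt
    exact ⟨n0 + b, n0 + a, by omega, by omega, by omega, h.symm⟩

theorem middle [Finite H] [Nontrivial H] {F : H → H → Prop} (hc : IsCore F) (hs : Smooth F)
    (he : EssUnary F) {M : ℕ} (hM : Nat.card ((H → H) → H) < M) (G : ℕ → (H → H) → H)
    (hG : ∀ n m, n < m → m ≤ 2 * M → ∀ x y, (∀ i, F (x i) (y i)) → F (G n x) (G m y)) :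
    ∃ (l : H) (σ : H → H), IsHom F F σ ∧ ∀ x, G M x = σ (x l) := by
  classical
  obtain ⟨i, j, -, hij, hjM, hg⟩ := pig hM G 0
  obtain ⟨i', j', hi', hij', hj', hg'⟩ := pig hM G (M + 1)
  have hp : IsPol F (G i) := by
    intro x y hxy
    have := hG i j hij (by omega) x y hxy
    rwa [← hg] at this
  have hp' : IsPol F (G i') := by
    intro x y hxy
    have := hG i' j' hij' (by omega) x y hxy
    rwa [← hg'] at this
  obtain ⟨l, σ, hσ⟩ := he H (G i) hp
  obtain ⟨l', σ', hσ'⟩ := he H (G i') hp'
  have hσe : IsHom F F σ := fun a b h => by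
    have := hp (fun _ => a) (fun _ => b) (fun _ => h)
    rwa [hσ, hσ] at this
  have hσe' : IsHom F F σ' := fun a b h => by
    have := hp' (fun _ => a) (fun _ => b) (fun _ => h)
    rwa [hσ', hσ'] at this
  have cross : ∀ x y : H → H, (∀ k, F (x k) (y k)) → F (σ (x l)) (σ' (y l')) := by
    intro x y hxy
    have := hG i i' (by omega) (by omega) x y hxy
    rwa [hσ, hσ'] at this
  obtain ⟨τ, hτ, hτ1, hτ2⟩ := exists_inv hc hσe
  obtain ⟨τ', hτ', hτ1', hτ2'⟩ := exists_inv hc hσe'
  choose inn hinn using fun h => (hs h).1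
  choose out hout using fun h => (hs h).2
  have hl : l = l' := by
    by_contra hne
    obtain ⟨h0, h1, h01⟩ := exists_pair_ne H
    have := cross (fun k => if k = l' then inn (τ' h0) else τ h0)
      (fun k => if k = l' then τ' h0 else out (τ h0)) (by
        intro k
        by_cases hk : k = l'
        · simp only [hk, if_true]; exact hinn _
        · simp only [hk, if_false]; exact hout _)
    simp only [hne, if_true, if_false, hτ2, hτ2'] at this
    exact h01 (subsingleton_of_loop hc this _ _)
  subst hl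
  have hσσ : σ' = σ := eq_of_below hc hσe hσe'
    (fun x y h => cross (fun _ => x) (fun _ => y) (fun _ => h))
  subst hσσ
  refine ⟨l, σ', hσe, fun x => ?_⟩
  apply fold_point hc
  · intro z hz
    have h1 : F (τ z) (x l) := by
      have := hτ _ _ hz
      rwa [hτ1] at this
    have h2 := hG i M (by omega) (by omega) (fun k => if k = l then τ z else inn (x k)) x (by
      intro k
      by_cases hk : k = l
      · simp only [hk, if_true]; exact h1
      · simp only [hk, if_false]; exact hinn _)
    rw [hσ] at h2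
    simp only [if_true, hτ2] at h2
    exact h2
  · intro y hy
    have h1 : F (x l) (τ y) := by
      have := hτ _ _ hy
      rwa [hτ1] at this
    have h2 := hG M i' (by omega) (by omega) x (fun k => if k = l then τ y else out (x k)) (by
      intro k
      by_cases hk : k = l
      · simp only [hk, if_true]; exact h1
      · simp only [hk, if_false]; exact hout _)
    rw [hσ'] at h2
    simp only [if_true, hτ2] at h2
    exact h2

/-- a chain passing through a finite set -/
theorem chainThrough {E : C → C → Prop} (hE : Ext E) (U : Finset C) (M : ℕ) :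
    ∃ w : ℕ → C, (∀ n m, n < m → n ≠ M → m ≠ M → E (w n) (w m)) ∧
      (∀ n, n < M → ∀ u ∈ U, E (w n) u) ∧ ∀ n, M < n → ∀ u ∈ U, E u (w n) := by
  classical
  obtain ⟨wd, hd, hdU⟩ := chainDown hE U
  obtain ⟨wu, hu, huU⟩ := chainUp hE (U ∪ (Finset.range (M + 1)).image wd)
  refine ⟨fun n => if n < M then wd (M - n) else wu n, ?_, ?_, ?_⟩
  · intro n m hnm hn hm
    by_cases h1 : n < M
    · by_cases h2 : m < M
      · simp only [h1, h2, if_true]
        exact hd _ _ (by omega)
      · simp only [h1, h2, if_true, if_false]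
        apply huU
        apply Finset.mem_union_right
        apply Finset.mem_image_of_mem
        simp only [Finset.mem_range]
        omega
    · have h2 : ¬ m < M := by omega
      simp only [h1, h2, if_false]
      exact hu _ _ hnm
  · intro n hn u hu'
    simp only [hn, if_true]
    exact hdU _ _ hu'
  · intro n hn u hu'
    have h1 : ¬ n < M := by omega
    simp only [h1, if_false]
    exact huU _ _ (Finset.mem_union_left _ hu')

/-- the patterns `x ↦ σ (x l)` are primitive positive definable -/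
theorem pp_pattern [Finite H] [Nontrivial H] {E : C → C → Prop} {F : H → H → Prop} (hE : Ext E)
    (hc : IsCore F) (hs : Smooth F) (he : EssUnary F) :
    PP (prodE E F) (H → H) (fun u => ∃ (l : H) (σ : H → H), IsHom F F σ ∧
      ∀ x, (u x).2 = σ (x l)) := by
  classical
  obtain ⟨M, hM⟩ : ∃ M, Nat.card ((H → H) → H) < M := ⟨_, Nat.lt_succ_self _⟩
  let V := Fin (2 * M + 1) × (H → H)
  let mid : Fin (2 * M + 1) := ⟨M, by omega⟩
  let W := {p : V × V // p.1.1 < p.2.1 ∧ ∀ i, F (p.1.2 i) (p.2.2 i)}
  have h1 : PP (prodE E F) ((H → H) ⊕ V) (fun z => (∀ k : W, prodE E F (z (Sum.inr k.1.1))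
      (z (Sum.inr k.1.2))) ∧ ∀ x : H → H, z (Sum.inr (mid, x)) = z (Sum.inl x)) := by
    apply PP.and
    · exact PP.conj W inferInstance _ (fun k => PP.edge _ _)
    · exact PP.conj (H → H) inferInstance _ (fun k => PP.eq _ _)
  refine (PP.ex V inferInstance _ h1).congr ?_
  intro u
  constructor
  · rintro ⟨v, hv1, hv2⟩
    simp only [Sum.elim_inr, Sum.elim_inl] at hv1 hv2
    obtain ⟨l, σ, hσ, hl⟩ := middle hc hs he hM
      (fun n x => (v (Fin.ofNat (2 * M + 1) n, x)).2) (by
        intro n m hnm hm x y hxy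
        refine (hv1 ⟨((Fin.ofNat (2 * M + 1) n, x), (Fin.ofNat (2 * M + 1) m, y)), ?_, hxy⟩).2
        show Fin.ofNat (2 * M + 1) n < Fin.ofNat (2 * M + 1) m
        rw [Fin.lt_def]
        simp only [Fin.val_ofNat]
        rw [Nat.mod_eq_of_lt (by omega), Nat.mod_eq_of_lt (by omega)]
        exact hnm)
    refine ⟨l, σ, hσ, fun x => ?_⟩
    rw [← hv2 x, ← hl x]
    have : Fin.ofNat (2 * M + 1) M = mid := by
      apply Fin.ext
      simp only [Fin.val_ofNat]
      exact Nat.mod_eq_of_lt (by omega)
    show _ = (v (Fin.ofNat (2 * M + 1) M, x)).2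
    rw [this]
  · rintro ⟨l, σ, hσ, hl⟩
    have := Fintype.ofFinite (H → H)
    obtain ⟨w, hw, hw1, hw2⟩ := chainThrough hE (Finset.univ.image fun x : H → H => (u x).1) M
    have hmem : ∀ x : H → H, (u x).1 ∈ Finset.univ.image fun x : H → H => (u x).1 := fun x =>
      Finset.mem_image_of_mem _ (Finset.mem_univ _)
    refine ⟨fun p => if p.1 = mid then u p.2 else (w p.1, σ (p.2 l)), ?_, ?_⟩
    · rintro ⟨⟨⟨n, x⟩, ⟨m, y⟩⟩, hnm, hxy⟩
      simp only [Sum.elim_inr]
      simp only at hnm hxy
      have hnm' : n.val < m.val := hnm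
      have hF : F (σ (x l)) (σ (y l)) := hσ _ _ (hxy l)
      by_cases h1 : n = mid
      · have h2 : m ≠ mid := by rintro rfl; omega
        simp only [h1, h2, if_true, if_false]
        refine ⟨hw2 _ ?_ _ (hmem x), ?_⟩
        · rw [h1] at hnm'; exact hnm'
        · rw [hl]; exact hF
      · by_cases h2 : m = mid
        · simp only [h1, h2, if_true, if_false]
          refine ⟨hw1 _ ?_ _ (hmem y), ?_⟩
          · rw [h2] at hnm'; exact hnm'
          · rw [hl]; exact hF
        · simp only [h1, h2, if_false]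
          refine ⟨hw _ _ hnm' ?_ ?_, hF⟩
          · intro h; exact h1 (Fin.ext h)
          · intro h; exact h2 (Fin.ext h)
    · intro x
      simp

/-- having the same colour is primitive positive definable in the product -/
theorem pp_same [Finite H] [Nontrivial H] {E : C → C → Prop} {F : H → H → Prop} (hE : Ext E)
    (hc : IsCore F) (hs : Smooth F) (he : EssUnary F) {ι : Type} (i j : ι) :
    PP (prodE E F) ι (fun x => (x i).2 = (x j).2) := by
  classical
  have hP := pp_pattern hE hc hs he
  let K := (H → H) ⊕ (H → H)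
  have h1 : PP (prodE E F) (ι ⊕ K) (fun z =>
      ((∃ (l : H) (σ : H → H), IsHom F F σ ∧
        ∀ x, ((z ∘ fun x => Sum.inr (Sum.inl x)) x).2 = σ (x l)) ∧
      (∃ (l : H) (σ : H → H), IsHom F F σ ∧
        ∀ x, ((z ∘ fun x => Sum.inr (Sum.inr x)) x).2 = σ (x l))) ∧
      ((z (Sum.inr (Sum.inl id)) = z (Sum.inl i) ∧ z (Sum.inr (Sum.inr id)) = z (Sum.inl j)) ∧
      ∀ x : {x : H → H // x ≠ id}, z (Sum.inr (Sum.inl x.1)) = z (Sum.inr (Sum.inr x.1)))) := by
    refine PP.and (PP.and ?_ ?_) (PP.and (PP.and ?_ ?_) ?_)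
    · exact hP.sub (fun x => Sum.inr (Sum.inl x))
    · exact hP.sub (fun x => Sum.inr (Sum.inr x))
    · exact PP.eq _ _
    · exact PP.eq _ _
    · exact PP.conj _ inferInstance _ (fun k => PP.eq _ _)
  refine (PP.ex K inferInstance _ h1).congr ?_
  intro x
  obtain ⟨p, q, hpq⟩ := exists_pair_ne H
  constructor
  · rintro ⟨y, ⟨⟨l, σ, hσ, hl⟩, ⟨l', σ', hσ', hl'⟩⟩, ⟨⟨e1, e2⟩, e3⟩⟩
    simp only [Function.comp, Sum.elim_inr, Sum.elim_inl] at hl hl' e1 e2 e3
    have hcst : ∀ a : H, (fun _ : H => a) ≠ id := by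
      intro a h
      by_cases ha : a = p
      · have := congrFun h q
        simp only [id] at this
        exact hpq (ha ▸ this)
      · exact ha (congrFun h p)
    have hσσ : σ = σ' := by
      funext a
      have h3 := hl (fun _ => a)
      have h4 := hl' (fun _ => a)
      rw [e3 ⟨_, hcst a⟩] at h3
      simp only at h3 h4
      rw [← h3, ← h4]
    have hll : l = l' := by
      by_contra hne
      have hsw : (⇑(Equiv.swap l l') : H → H) ≠ id := by
        intro h
        have := congrFun h l
        rw [Equiv.swap_apply_left] at this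
        exact hne this.symm
      have h3 := hl (Equiv.swap l l')
      have h4 := hl' (Equiv.swap l l')
      rw [e3 ⟨_, hsw⟩] at h3
      simp only at h3 h4
      rw [h3, hσσ] at h4
      have h5 := hc _ hσ' h4
      rw [Equiv.swap_apply_left, Equiv.swap_apply_right] at h5
      exact hne h5.symm
    rw [← e1, ← e2, hl id, hl' id, hσσ, hll]
  · intro h
    refine ⟨Sum.elim (fun f => if f = id then x i else ((x i).1, f (x i).2))
      (fun f => if f = id then x j else ((x i).1, f (x i).2)), ⟨⟨(x i).2, id, fun _ _ h => h, ?_⟩,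
        ⟨(x i).2, id, fun _ _ h => h, ?_⟩⟩, ⟨⟨?_, ?_⟩, ?_⟩⟩
    · intro f
      simp only [Function.comp, Sum.elim_inr, Sum.elim_inl]
      by_cases hf : f = id
      · simp [hf]
      · simp [hf]
    · intro f
      simp only [Function.comp, Sum.elim_inr]
      by_cases hf : f = id
      · simp [hf, h]
      · simp [hf]
    · simp
    · simp
    · rintro ⟨f, hf⟩
      simp [hf]

theorem pp_lift [Finite H] [Nontrivial H] {E : C → C → Prop} {F : H → H → Prop} (hE : Ext E)
    (hc : IsCore F) (hs : Smooth F) (he : EssUnary F) {ι : Type} {R : (ι → H) → Prop}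
    (hR : PP F ι R) : PP (prodE E F) ι (fun x => R (fun i => (x i).2)) := by
  obtain ⟨c0, -⟩ := (hE ∅).1
  obtain ⟨c1, hc1⟩ := (hE {c0}).2
  have hc01 : E c0 c1 := hc1 _ (by simp)
  induction hR with
  | @edge ι i j =>
    have h1 : PP (prodE E F) (ι ⊕ Bool) (fun z => ((z (Sum.inl i)).2 = (z (Sum.inr true)).2 ∧
        (z (Sum.inl j)).2 = (z (Sum.inr false)).2) ∧
        prodE E F (z (Sum.inr true)) (z (Sum.inr false))) :=
      PP.and (PP.and (pp_same hE hc hs he _ _) (pp_same hE hc hs he _ _)) (PP.edge _ _)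
    refine (PP.ex Bool inferInstance _ h1).congr ?_
    intro x
    constructor
    · rintro ⟨y, ⟨e1, e2⟩, e3⟩
      simp only [Sum.elim_inr, Sum.elim_inl] at e1 e2 e3
      show F (x i).2 (x j).2
      rw [e1, e2]
      exact e3.2
    · intro h
      refine ⟨fun b => cond b (c0, (x i).2) (c1, (x j).2), ⟨?_, ?_⟩, ?_⟩
      · rfl
      · rfl
      · exact ⟨hc01, h⟩
  | eq i j => exact pp_same hE hc hs he i j
  | @conj ι κ hκ R h ih =>
    exact PP.conj κ hκ (fun k (x : ι → C × H) => R k (fun i => (x i).2)) ih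
  | ex κ hκ R h ih =>
    refine (PP.ex κ hκ _ ih).congr ?_
    intro x
    constructor
    · rintro ⟨y, hy⟩
      refine ⟨fun k => (y k).2, ?_⟩
      have : (fun i => (Sum.elim x y i).2) = Sum.elim (fun i => (x i).2) (fun k => (y k).2) := by
        funext z; cases z <;> rfl
      rw [this] at hy
      exact hy
    · rintro ⟨y, hy⟩
      refine ⟨fun k => (c0, y k), ?_⟩
      have : (fun i => (Sum.elim x (fun k => (c0, y k)) i).2) =
          Sum.elim (fun i => (x i).2) y := by
        funext z; cases z <;> rfl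
      rw [this]
      exact hy

theorem ppc_lift [Finite H] [Nontrivial H] {E : C → C → Prop} {F : H → H → Prop} (hE : Ext E)
    (hc : IsCore F) (hs : Smooth F) (he : EssUnary F) {B : Type} {K : B → B → Prop}
    (h : PPConstructs F K) : PPConstructs (prodE E F) K := by
  obtain ⟨ι, h1, h2, R, hR, ⟨g, hg⟩, ⟨g', hg'⟩⟩ := h
  obtain ⟨c0, -⟩ := (hE ∅).1
  refine ⟨ι, h1, h2, _, pp_lift hE hc hs he hR, ⟨fun u => g (fun i => (u i).2), ?_⟩,
    ⟨fun b i => (c0, g' b i), ?_⟩⟩
  · intro u v huv
    apply hg
    have : (fun i => (Sum.elim u v i).2) = Sum.elim (fun i => (u i).2) (fun i => (v i).2) := by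
      funext z; cases z <;> rfl
    rw [this] at huv
    exact huv
  · intro a b hab
    have : (fun i => (Sum.elim (fun i => (c0, g' a i)) (fun i => (c0, g' b i)) i).2) =
        Sum.elim (g' a) (g' b) := by
      funext z; cases z <;> rfl
    rw [this]
    exact hg' _ _ hab

end Pool.Agent.R786.BP
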