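import Pool.Agent.R786.BP.Ess

namespace Pool.Agent.R786.BP

open Function

variable {C H A : Type}

/-- a nontrivial core all of whose polymorphisms are essentially unary pp-constructs everything -/
theorem ess_constructs [Finite H] [Nontrivial H] {F : H → H → Prop} (hc : IsCore F)
    (he : EssUnary F) {B : Type} [Finite B] [Nonempty B] (K : B → B → Prop) :
    PPConstructs F K := by
  classical
  let D := {e : B × B // K e.1 e.2}
  let src : D → B := fun e => e.1.1
  let tgt : D → B := fun e => e.1.2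
  let W := {p : (D → H) × (D → H) // ∀ i, F (p.1 i) (p.2 i)}
  have h1 : PP F (((B → H) ⊕ (B → H)) ⊕ (D → H)) (fun z =>
      ((∀ k : W, F (z (Sum.inr k.1.1)) (z (Sum.inr k.1.2))) ∧
      ∀ x : B → H, z (Sum.inl (Sum.inl x)) = z (Sum.inr (x ∘ src))) ∧
      ∀ x : B → H, z (Sum.inl (Sum.inr x)) = z (Sum.inr (x ∘ tgt))) := by
    refine PP.and (PP.and ?_ ?_) ?_
    · exact PP.conj W inferInstance _ (fun k => PP.edge _ _)
    · exact PP.conj (B → H) inferInstance _ (fun k => PP.eq _ _)
    · exact PP.conj (B → H) inferInstance _ (fun k => PP.eq _ _)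
  have h2 := PP.ex (D → H) inferInstance _ h1
  obtain ⟨b0⟩ := ‹Nonempty B›
  obtain ⟨p, q, hpq⟩ := exists_pair_ne H
  have uniq : ∀ (b b' : B) (σ σ' : H → H), Injective σ → Injective σ' →
      (∀ x : B → H, σ (x b) = σ' (x b')) → b = b' := by
    intro b b' σ σ' h h' hx
    by_contra hne
    have e1 := hx (fun k => if k = b then p else q)
    have e2 := hx (fun _ => q)
    simp only [if_true, Ne.symm hne, if_false] at e1 e2
    exact hpq (h (e1.trans e2.symm))
  refine ⟨B → H, inferInstance, ⟨fun _ => p⟩, _, h2, ⟨fun u =>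
    if h : ∃ (b : B) (σ : H → H), Injective σ ∧ ∀ x, u x = σ (x b) then h.choose else b0, ?_⟩,
    ⟨fun b x => x b, ?_⟩⟩
  · rintro u w ⟨v, ⟨hv1, hv2⟩, hv3⟩
    simp only [Sum.elim_inr, Sum.elim_inl] at hv1 hv2 hv3
    obtain ⟨e, σ, hσ⟩ := he D v (fun x y hxy => hv1 ⟨(x, y), hxy⟩)
    have hσi : Injective σ := by
      apply hc
      intro a b hab
      have := hv1 ⟨(fun _ => a, fun _ => b), fun _ => hab⟩
      simp only [hσ] at this
      exact this
    have hu : ∃ (b : B) (σ : H → H), Injective σ ∧ ∀ x, u x = σ (x b) :=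
      ⟨src e, σ, hσi, fun x => by rw [hv2, hσ]; rfl⟩
    have hw : ∃ (b : B) (σ : H → H), Injective σ ∧ ∀ x, w x = σ (x b) :=
      ⟨tgt e, σ, hσi, fun x => by rw [hv3, hσ]; rfl⟩
    show K (dite _ _ _) (dite _ _ _)
    rw [dif_pos hu, dif_pos hw]
    have e1 : hu.choose = src e := by
      obtain ⟨σ', h3, h4⟩ := hu.choose_spec
      apply uniq _ _ σ' σ h3 hσi
      intro x
      rw [← h4, hv2, hσ]; rfl
    have e2 : hw.choose = tgt e := by
      obtain ⟨σ', h3, h4⟩ := hw.choose_spec
      apply uniq _ _ σ' σ h3 hσi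
      intro x
      rw [← h4, hv3, hσ]; rfl
    rw [e1, e2]
    exact e.2
  · intro a b hab
    refine ⟨fun y => y ⟨(a, b), hab⟩, ⟨?_, ?_⟩, ?_⟩
    · rintro ⟨⟨x, y⟩, hxy⟩
      exact hxy _
    · intro x; rfl
    · intro x; rfl

/-- pp-definitions along homomorphic equivalences -/
theorem pp_transfer {A' : Type} {E : A → A → Prop} {E' : A' → A' → Prop} {a : A → A'}
    {b : A' → A} (ha : IsHom E E' a) (hb : IsHom E' E b) {ι : Type} {R : (ι → A) → Prop}
    (hR : PP E ι R) : ∃ R' : (ι → A') → Prop, PP E' ι R' ∧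
      (∀ x, R x → R' (fun i => a (x i))) ∧ ∀ x, R' x → R (fun i => b (x i)) := by
  induction hR with
  | edge i j => exact ⟨_, PP.edge i j, fun x h => ha _ _ h, fun x h => hb _ _ h⟩
  | eq i j => exact ⟨_, PP.eq i j, fun x h => congrArg a h, fun x h => congrArg b h⟩
  | conj κ hκ R h ih =>
    choose R' h1 h2 h3 using ih
    exact ⟨_, PP.conj κ hκ R' h1, fun x h k => h2 k x (h k), fun x h k => h3 k x (h k)⟩
  | ex κ hκ R h ih =>
    obtain ⟨R', h1, h2, h3⟩ := ih
    refine ⟨_, PP.ex κ hκ R' h1, ?_, ?_⟩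
    · rintro x ⟨y, hy⟩
      refine ⟨fun k => a (y k), ?_⟩
      have := h2 _ hy
      convert this using 1
      funext z; cases z <;> rfl
    · rintro x ⟨y, hy⟩
      refine ⟨fun k => b (y k), ?_⟩
      have := h3 _ hy
      convert this using 1
      funext z; cases z <;> rfl

theorem ppc_transfer {A' B : Type} {E : A → A → Prop} {E' : A' → A' → Prop} {K : B → B → Prop}
    {a : A → A'} {b : A' → A} (ha : IsHom E E' a) (hb : IsHom E' E b) (h : PPConstructs E K) :
    PPConstructs E' K := by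
  obtain ⟨ι, h1, h2, R, hR, ⟨g, hg⟩, ⟨g', hg'⟩⟩ := h
  obtain ⟨R', hR', h3, h4⟩ := pp_transfer ha hb hR
  refine ⟨ι, h1, h2, R', hR', ⟨fun u => g (fun i => b (u i)), ?_⟩, ⟨fun k i => a (g' k i), ?_⟩⟩
  · intro u v huv
    apply hg
    have := h4 _ huv
    convert this using 1
    funext z; cases z <;> rfl
  · intro x y hxy
    have := h3 _ (hg' _ _ hxy)
    convert this using 1
    funext z; cases z <;> rfl

/-- there is a path with `n` edges ending at the vertex -/
def InL (E : A → A → Prop) : ℕ → A → Prop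
  | 0, _ => True
  | n + 1, v => ∃ u, E u v ∧ InL E n u

/-- there is a path with `n` edges starting at the vertex -/
def OutL (E : A → A → Prop) : ℕ → A → Prop
  | 0, _ => True
  | n + 1, v => ∃ u, E v u ∧ OutL E n u

/-- vertices that are both the end and the start of arbitrarily long paths -/
def Inner (E : A → A → Prop) (v : A) : Prop := ∀ n, InL E n v ∧ OutL E n v

/-- The edge relation is rectangular on the inner vertices. -/
def InnerRect (E : A → A → Prop) : Prop :=
  ∀ x x' y y', Inner E x → Inner E x' → Inner E y → Inner E y' →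
    E x y → E x' y → E x' y' → E x y'

/-- the digraph of all `M`-tuples -/
def powE (M : ℕ) (F : H → H → Prop) : (Fin M → H) → (Fin M → H) → Prop :=
  fun x y => ∀ i j, i < j → F (x i) (y j)

theorem InL.mono {E : A → A → Prop} : ∀ {n m : ℕ} {v : A}, n ≤ m → InL E m v → InL E n v := by
  intro n
  induction n with
  | zero => intro m v _ _; trivial
  | succ n ih =>
    intro m v hm h
    cases m with
    | zero => omega
    | succ m =>
      obtain ⟨u, h1, h2⟩ := h
      exact ⟨u, h1, ih (by omega) h2⟩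

theorem OutL.mono {E : A → A → Prop} : ∀ {n m : ℕ} {v : A}, n ≤ m → OutL E m v → OutL E n v := by
  intro n
  induction n with
  | zero => intro m v _ _; trivial
  | succ n ih =>
    intro m v hm h
    cases m with
    | zero => omega
    | succ m =>
      obtain ⟨u, h1, h2⟩ := h
      exact ⟨u, h1, ih (by omega) h2⟩

theorem exists_bound [Finite H] (F : H → H → Prop) : ∃ K, ∀ v, InL F K v → OutL F K v →
    Inner F v := by
  classical
  have := Fintype.ofFinite H
  have h1 : ∀ v, ∃ n, Inner F v ∨ ¬ InL F n v ∨ ¬ OutL F n v := by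
    intro v
    by_cases h : Inner F v
    · exact ⟨0, Or.inl h⟩
    · unfold Inner at h
      push Not at h
      obtain ⟨n, hn⟩ := h
      refine ⟨n, Or.inr ?_⟩
      by_cases h2 : InL F n v
      · exact Or.inr (hn h2)
      · exact Or.inl h2
  choose n hn using h1
  refine ⟨Finset.univ.sup n, fun v hi ho => ?_⟩
  have hle : n v ≤ Finset.univ.sup n := Finset.le_sup (Finset.mem_univ v)
  rcases hn v with h | h | h
  · exact h
  · exact absurd (hi.mono hle) h
  · exact absurd (ho.mono hle) h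

theorem inL_pow {F : H → H → Prop} {M : ℕ} : ∀ (n : ℕ) (x : Fin M → H), InL (powE M F) n x →
    ∀ j : Fin M, n ≤ j.val → InL F n (x j) := by
  intro n
  induction n with
  | zero => intro x _ j _; trivial
  | succ n ih =>
    rintro x ⟨w, h1, h2⟩ j hj
    have hj2 := j.2
    exact ⟨w ⟨j.val - 1, by omega⟩, h1 _ _ (Fin.lt_def.2 (by simp only; omega)),
      ih w h2 _ (by simp only; omega)⟩

theorem outL_pow {F : H → H → Prop} {M : ℕ} : ∀ (n : ℕ) (x : Fin M → H), OutL (powE M F) n x →
    ∀ j : Fin M, j.val + n < M → OutL F n (x j) := by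
  intro n
  induction n with
  | zero => intro x _ j _; trivial
  | succ n ih =>
    rintro x ⟨w, h1, h2⟩ j hj
    have hj2 := j.2
    exact ⟨w ⟨j.val + 1, by omega⟩, h1 _ _ (Fin.lt_def.2 (by simp only; omega)),
      ih w h2 _ (by simp only; omega)⟩

theorem pow_hom [Finite H] {F : H → H → Prop} (hF : InnerRect F) :
    ∃ (M : ℕ) (f : (Fin (M + 1) → H) → H), IsHom (powE (M + 1) F) F f := by
  classical
  obtain ⟨K, hK⟩ := exists_bound F
  let M := 2 * K + 2
  let a : (Fin (M + 1) → H) → ℕ := fun x => Nat.findGreatest (fun n => InL (powE (M + 1) F) n x) K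
  let b : (Fin (M + 1) → H) → ℕ := fun x => Nat.findGreatest (fun n => OutL (powE (M + 1) F) n x) K
  have haK : ∀ x, a x ≤ K := fun x => Nat.findGreatest_le K
  have hbK : ∀ x, b x ≤ K := fun x => Nat.findGreatest_le K
  have ha : ∀ x, InL (powE (M + 1) F) (a x) x := fun x =>
    Nat.findGreatest_spec (P := fun n => InL (powE (M + 1) F) n x) (Nat.zero_le K) trivial
  have hb : ∀ x, OutL (powE (M + 1) F) (b x) x := fun x =>
    Nat.findGreatest_spec (P := fun n => OutL (powE (M + 1) F) n x) (Nat.zero_le K) trivial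
  have ha' : ∀ x n, n ≤ K → InL (powE (M + 1) F) n x → n ≤ a x := fun x n h1 h2 =>
    Nat.le_findGreatest h1 h2
  have hb' : ∀ x n, n ≤ K → OutL (powE (M + 1) F) n x → n ≤ b x := fun x n h1 h2 =>
    Nat.le_findGreatest h1 h2
  have hM : M = 2 * K + 2 := rfl
  let pos : (Fin (M + 1) → H) → Fin (M + 1) := fun x =>
    if a x < K then ⟨a x, by have := haK x; omega⟩ else
      if b x < K then ⟨M - b x, by omega⟩ else ⟨K + 1, by omega⟩
  have hpos : ∀ x, (pos x).val = if a x < K then a x else if b x < K then M - b x else K + 1 := by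
    intro x
    simp only [pos]
    split_ifs <;> rfl
  refine ⟨M, fun x => x (pos x), ?_⟩
  intro x y hxy
  show F (x (pos x)) (y (pos y))
  have e1 : a x + 1 ≤ K → a x + 1 ≤ a y := fun h => ha' y _ h ⟨x, hxy, ha x⟩
  have e2 : b y + 1 ≤ K → b y + 1 ≤ b x := fun h => hb' x _ h ⟨y, hxy, hb y⟩
  have e1' : K ≤ a x → K ≤ a y := fun h => by
    rcases Nat.eq_zero_or_pos K with h0 | h0
    · omega
    · exact ha' y K le_rfl (InL.mono (m := a x + 1) (by omega) ⟨x, hxy, ha x⟩)
  have e2' : K ≤ b y → K ≤ b x := fun h => by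
    rcases Nat.eq_zero_or_pos K with h0 | h0
    · omega
    · exact hb' x K le_rfl (OutL.mono (m := b y + 1) (by omega) ⟨y, hxy, hb y⟩)
  have h1 := haK x
  have h2 := haK y
  have h3 := hbK x
  have h4 := hbK y
  by_cases hmid : K ≤ a x ∧ K ≤ b x ∧ K ≤ b y
  · obtain ⟨m1, m2, m3⟩ := hmid
    have m4 := e1' m1
    have p1 : (pos x) = ⟨K + 1, by omega⟩ := by
      apply Fin.ext
      rw [hpos, if_neg (by omega), if_neg (by omega)]
    have p2 : (pos y) = ⟨K + 1, by omega⟩ := by
      apply Fin.ext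
      rw [hpos, if_neg (by omega), if_neg (by omega)]
    rw [p1, p2]
    have inn : ∀ z : Fin (M + 1) → H, K ≤ a z → K ≤ b z → ∀ j : Fin (M + 1), K ≤ j.val →
        j.val ≤ K + 2 → Inner F (z j) := by
      intro z hz1 hz2 j hj1 hj2
      apply hK
      · exact inL_pow K z ((ha z).mono hz1) j hj1
      · exact outL_pow K z ((hb z).mono hz2) j (by omega)
    have q1 : F (x ⟨K + 1, by omega⟩) (y ⟨K + 2, by omega⟩) := hxy _ _ (Fin.lt_def.2 (by simp))
    have q2 : F (x ⟨K, by omega⟩) (y ⟨K + 2, by omega⟩) := hxy _ _ (Fin.lt_def.2 (by simp))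
    have q3 : F (x ⟨K, by omega⟩) (y ⟨K + 1, by omega⟩) := hxy _ _ (Fin.lt_def.2 (by simp))
    exact hF _ _ _ _ (inn x m1 m2 _ (by simp) (by simp)) (inn x m1 m2 _ (by simp) (by simp))
      (inn y m4 m3 _ (by simp) (by simp)) (inn y m4 m3 _ (by simp) (by simp)) q1 q2 q3
  · apply hxy
    rw [Fin.lt_def, hpos, hpos]
    split_ifs <;> omega

/-- if the power of tuples maps to `F` then the product pp-constructs `F` -/
theorem ppc_of_pow {E : C → C → Prop} {F : H → H → Prop} (hE : Ext E) {M : ℕ}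
    {f : (Fin (M + 1) → H) → H} (hf : IsHom (powE (M + 1) F) F f) :
    PPConstructs (prodE E F) F := by
  obtain ⟨w, hw, -⟩ := chainUp hE ∅
  let W := {p : Fin (M + 1) × Fin (M + 1) // p.1 < p.2}
  have h1 : PP (prodE E F) (Fin (M + 1) ⊕ Fin (M + 1)) (fun z => ∀ k : W,
      prodE E F (z (Sum.inl k.1.1)) (z (Sum.inr k.1.2))) :=
    PP.conj W inferInstance _ (fun k => PP.edge _ _)
  refine ⟨Fin (M + 1), inferInstance, inferInstance, _, h1, ⟨fun u => f (fun i => (u i).2), ?_⟩,
    ⟨fun h i => (w i.val, h), ?_⟩⟩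
  · intro u v huv
    apply hf
    intro i j hij
    exact (huv ⟨(i, j), hij⟩).2
  · rintro x y hxy ⟨⟨i, j⟩, hij⟩
    exact ⟨hw _ _ hij, hxy⟩

end Pool.Agent.R786.BP
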